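import Pool.Agent.R130.CovG

/-!
# Upper covering entropy equals the compatible-measure bound (MP_87c4bd_co, negated form)

All definitions are in `Pool.Agent.R130.CovA`:
* `nl y = -log y`, `lg y = log y` (natural logarithms, with values in `[0,∞]`);
* `covN π I lam l` is the least number of `l`-dimensional `I`-boxes whose union has
  `π^l`-measure at least `1 - lam` (`∞` if there is no finite family);
* `Hfull π I` is the infimum of `φ_π(a_β)` over compatible `β`;
* `Hcnt π I` is the infimum of `φ_π` over countable convex combinations.
-/

open MeasureTheory ENNReal Filter Topology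
open Pool.Agent.R130.Cov

namespace Pool.Agent.Results.MP_87c4bd_co.CoveringEntropy

universe u

/-- For every probability space, every system `I` of measurable sets and every `0 < lam < 1`,
the sequence `(1/l) log N_l(I, π, lam)` converges to `Hfull π I`; in particular the upper
covering entropy equals `Hfull π I`. Moreover `Hcnt π I = Hfull π I`. -/
theorem result {Ω : Type u} [MeasurableSpace Ω] (π : Measure Ω) [IsProbabilityMeasure π]
    (I : Set (Set Ω)) (hI : ∀ J ∈ I, MeasurableSet J) (lam : ℝ) (h0 : 0 < lam) (h1 : lam < 1) :
    limsup (fun l : ℕ => lg (covN π I lam l) / (l : ℝ≥0∞)) atTop = Hfull π I ∧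
    liminf (fun l : ℕ => lg (covN π I lam l) / (l : ℝ≥0∞)) atTop = Hfull π I ∧
    Hcnt π I = Hfull π I := by
  obtain ⟨h, e⟩ := covering_entropy π I hI lam h0 h1
  exact ⟨h.limsup_eq, h.liminf_eq, e⟩

end Pool.Agent.Results.MP_87c4bd_co.CoveringEntropy
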